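import Pool.Agent.helper17.RX.Spec

set_option autoImplicit false

namespace TP.TW

open DP MeasureTheory Finset

theorem RLB_prob : IsProbabilityMeasure P1 := by
  unfold P1
  infer_instance

theorem RLB_inj {n : ℕ} : Function.Injective (phi (n := n)) := by
  intro p q h
  simp only [phi, Prod.mk.injEq] at h
  obtain ⟨h1, h2⟩ := h
  ext <;> omega

theorem RLB_br {n : ℕ} (p : Fin n × Fin n) : br (phi p) = phi p := by
  apply br_of_even
  simp only [phi]
  omega

theorem RLB_rh {n : ℕ} (p : Fin n × Fin n) : phi p ∈ rh ((n : ℤ) - 1) := by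
  have h1 := p.1.2
  have h2 := p.2.2
  simp only [rh, phi, Set.mem_ofPred_eq]
  omega

theorem RLB_rel (rea : REA_stmt) (reb : REB_stmt) (br1 : BR1_stmt) {n : ℕ} (hn : 1 ≤ n)
    (A : Finset (Fin n × Fin n)) (β : V → Bool) (p : Fin n × Fin n) (hp : p ∉ A)
    (hb : ¬ BAD (col β) (A.image phi) (phi p)) :
    ∃ y y' : Fin n × Fin n → Bool, (∀ q ∈ A, y q = β (phi q)) ∧ (∀ q, q ≠ p → y' q = y q) ∧
      Crossing n y ∧ ¬ Crossing n y' := by
  have hpS : phi p ∉ A.image phi := fun h => by
    obtain ⟨q, hq, h⟩ := Finset.mem_image.mp h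
    exact hp (RLB_inj h ▸ hq)
  have h0 : (0 : ℤ) ≤ (n : ℤ) - 1 := by omega
  refine ⟨fun q => fil β (A.image phi) (phi p) true (phi q),
    fun q => fil β (A.image phi) (phi p) false (phi q), ?_, ?_, ?_, ?_⟩
  · intro q hq
    simp only [fil, if_pos (Finset.mem_image_of_mem phi hq)]
  · intro q hq
    have : phi q ≠ phi p := fun h => hq (RLB_inj h)
    simp only [fil, if_neg this]
  · exact (br1 n _ hn).mpr (rea β _ _ _ h0 (RLB_rh p) (RLB_br p) hpS hb)
  · exact fun h => reb β _ _ _ h0 (RLB_rh p) (RLB_br p) hpS hb ((br1 n _ hn).mp h)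

theorem RLB_cnt {α β : Type} [Fintype α] [Fintype β] [DecidableEq β] (S : α → Finset β)
    (i : ∀ p : β, DecidablePred fun x : α => p ∈ S x) :
    ∑ p : β, (#(@Finset.filter α (fun x => p ∈ S x) (i p) univ) : ℝ) = ∑ x : α, (#(S x) : ℝ) := by
  have h1 : ∀ x : α, (#(S x) : ℝ) = ∑ p : β, if p ∈ S x then (1 : ℝ) else 0 := by
    intro x
    simp
  have h2 : ∀ p : β, (#(@Finset.filter α (fun x => p ∈ S x) (i p) univ) : ℝ) =
      ∑ x : α, if p ∈ S x then (1 : ℝ) else 0 := by
    intro p
    rw [Finset.card_filter]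
    push_cast
    apply Finset.sum_congr rfl
    intro x _
    by_cases h : p ∈ S x <;> simp [h]
  rw [Finset.sum_congr rfl fun x _ => h1 x, Finset.sum_congr rfl fun p _ => h2 p, Finset.sum_comm]

theorem RLB (rea : REA_stmt) (reb : REB_stmt) (br1 : BR1_stmt) (br2 : BR2_stmt) : RLB_stmt := by
  have := RLB_prob
  intro n R hn hR b hb hdec
  -- pointwise
  have key : ∀ (p : Fin n × Fin n) (β : V → Bool),
      p ∈ (range R).biUnion (fun i => b i fun q => β (phi q)) ∨ BAD (col β) (lb b R β) (phi p) := by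
    intro p β
    by_contra hcon
    rw [not_or] at hcon
    obtain ⟨h1, h2⟩ := hcon
    have h1' : ∀ i < R, p ∉ b i fun q => β (phi q) := by
      intro i hi h
      exact h1 (Finset.mem_biUnion.mpr ⟨i, Finset.mem_range.mpr hi, h⟩)
    have hpA : p ∉ (range (R - 1)).biUnion fun l => b l fun q => β (phi q) := by
      intro h
      obtain ⟨l, hl, h3⟩ := Finset.mem_biUnion.mp h
      exact h1' l (by have := Finset.mem_range.mp hl; omega) h3
    obtain ⟨y, y', hy, hy', hc, hc'⟩ := RLB_rel rea reb br1 (by omega) _ β p hpA h2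
    have hag : ∀ j < R, b j (fun q => β (phi q)) = b j y := by
      intro j hj
      apply hb
      intro i hi q hq
      have hqA : q ∈ (range (R - 1)).biUnion fun l => b l fun q => β (phi q) :=
        Finset.mem_biUnion.mpr ⟨i, Finset.mem_range.mpr (by omega), hq⟩
      exact (hy q hqA).symm
    apply hc'
    refine (hdec y y' ?_).mp hc
    intro i hi q hq
    rw [← hag i hi] at hq
    refine (hy' q ?_).symm
    rintro rfl
    exact h1' i hi hq
  -- one site
  have hone : ∀ p : Fin n × Fin n, 1 ≤ Pr {β : V → Bool | p ∈ (range R).biUnion (fun i => b i fun q => β (phi q))} +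
      Pr {β : V → Bool | BAD (col β) (lb b R β) (phi p)} := by
    intro p
    have hsub : (Set.univ : Set (V → Bool)) ⊆ {β : V → Bool | p ∈ (range R).biUnion (fun i => b i fun q => β (phi q))} ∪
        {β : V → Bool | BAD (col β) (lb b R β) (phi p)} := by
      intro β _
      exact key p β
    have h1 : (1 : ℝ) = P1.real Set.univ := by simp
    have h2 := measureReal_mono (μ := P1) hsub
    have h3 := measureReal_union_le (μ := P1)
      {β : V → Bool | p ∈ (range R).biUnion (fun i => b i fun q => β (phi q))}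
      {β : V → Bool | BAD (col β) (lb b R β) (phi p)}
    have h4 : Pr {β : V → Bool | p ∈ (range R).biUnion (fun i => b i fun q => β (phi q))} =
      P1.real {β : V → Bool | p ∈ (range R).biUnion (fun i => b i fun q => β (phi q))} := rfl
    have h5 : Pr {β : V → Bool | BAD (col β) (lb b R β) (phi p)} =
      P1.real {β : V → Bool | BAD (col β) (lb b R β) (phi p)} := rfl
    rw [h4, h5]
    linarith
  have hsum := Finset.sum_le_sum (fun (p : Fin n × Fin n) (_ : p ∈ (Finset.univ : Finset (Fin n × Fin n))) => hone p)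
  rw [Finset.sum_add_distrib] at hsum
  have e0 : ∑ _p : Fin n × Fin n, (1 : ℝ) = (n : ℝ) ^ 2 := by
    rw [Finset.sum_const, nsmul_eq_mul, mul_one, Finset.card_univ, Fintype.card_prod, Fintype.card_fin]
    push_cast
    ring
  have e1 : ∑ p : Fin n × Fin n, Pr {β : V → Bool | p ∈ (range R).biUnion (fun i => b i fun q => β (phi q))} = cost b R := by
    have e2 : ∀ p : Fin n × Fin n, Pr {β : V → Bool | p ∈ (range R).biUnion (fun i => b i fun q => β (phi q))} =
        (#(@Finset.filter _ (fun x : Fin n × Fin n → Bool => p ∈ (range R).biUnion fun i => b i x) (fun _ => Classical.propDecidable _) univ) : ℝ) / 2 ^ (n * n) := by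
      intro p
      exact br2 n (fun x => p ∈ (range R).biUnion fun i => b i x)
    rw [Finset.sum_congr rfl fun p _ => e2 p, ← Finset.sum_div]
    unfold cost
    congr 1
    exact RLB_cnt (fun x : Fin n × Fin n → Bool => (range R).biUnion fun i => b i x) _
  have e3 : ∑ p : Fin n × Fin n, Pr {β : V → Bool | BAD (col β) (lb b R β) (phi p)} =
      ∑ v₀ ∈ (univ : Finset (Fin n × Fin n)).image phi, Pr {β | BAD (col β) (lb b R β) v₀} := by
    rw [Finset.sum_image fun p _ q _ h => RLB_inj h]
  rw [e0, e1, e3] at hsum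
  exact hsum

end TP.TW
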